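import Mathlib

/-!
# Disjoint cycles through prescribed vertices in graphs without an induced star `K_{1,s}`
-/

set_option autoImplicit false

namespace Pool.Agent.Results.MP_6859a2_co.InducedStars

open SimpleGraph Finset

/-- `G` has no induced `K_{1,3}`: among three distinct neighbours of a vertex two are adjacent. -/
def ClawFree {V : Type} (G : SimpleGraph V) : Prop :=
  ∀ v a b c : V, G.Adj v a → G.Adj v b → G.Adj v c → a ≠ b → a ≠ c → b ≠ c →
    G.Adj a b ∨ G.Adj a c ∨ G.Adj b c

/-- `G` has no induced `K_{1,s}`: among any `s` neighbours of a vertex two are adjacent. -/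
def StarFree {V : Type} (s : ℕ) (G : SimpleGraph V) : Prop :=
  ∀ (v : V) (T : Finset V), T.card = s → (∀ t ∈ T, G.Adj v t) → ∃ a ∈ T, ∃ b ∈ T, G.Adj a b

lemma ClawFree.starFree {V : Type} {G : SimpleGraph V} (h : ClawFree G) : StarFree 3 G := by
  classical
  intro v T hT hv
  obtain ⟨a, b, c, hab, hac, hbc, rfl⟩ := Finset.card_eq_three.1 hT
  rcases h v a b c (hv a (by simp)) (hv b (by simp)) (hv c (by simp)) hab hac hbc with h1 | h1 | h1
  · exact ⟨a, by simp, b, by simp, h1⟩
  · exact ⟨a, by simp, c, by simp, h1⟩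
  · exact ⟨b, by simp, c, by simp, h1⟩

lemma StarFree.mono {V : Type} {G : SimpleGraph V} {s t : ℕ} (h : StarFree s G) (hst : s ≤ t) :
    StarFree t G := by
  intro v T hT hv
  obtain ⟨T', hT', hc⟩ := Finset.exists_subset_card_eq (hst.trans hT.ge)
  obtain ⟨a, ha, b, hb, hab⟩ := h v T' hc fun t ht => hv t (hT' ht)
  exact ⟨a, hT' ha, b, hT' hb, hab⟩

/-- `c`-connected: more than `c` vertices, and deleting fewer than `c` vertices leaves a connected
graph. -/
def KConnected {V : Type} [Fintype V] (c : ℕ) (G : SimpleGraph V) : Prop :=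
  c < Fintype.card V ∧ ∀ W : Finset V, W.card < c → (G.induce {v | v ∉ W}).Connected

/-- The vertices `v i` are separated by disjoint cycles, all of which have length three except
possibly those with index outside `J`. -/
def SeparatedTri {V : Type} {k : ℕ} (G : SimpleGraph V) (v : Fin k → V) (J : Set (Fin k)) : Prop :=
  ∃ C : ∀ i, G.Walk (v i) (v i), (∀ i, (C i).IsCycle) ∧ (∀ i ∈ J, (C i).length = 3) ∧
    ∀ i j, i ≠ j → ∀ x, x ∈ (C i).support → x ∉ (C j).support

/-- The vertices `v 0, ..., v (k - 1)` are separated by `k` disjoint cycles. -/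
def Separated {V : Type} {k : ℕ} (G : SimpleGraph V) (v : Fin k → V) : Prop :=
  ∃ C : ∀ i, G.Walk (v i) (v i), (∀ i, (C i).IsCycle) ∧
    ∀ i j, i ≠ j → ∀ x, x ∈ (C i).support → x ∉ (C j).support

lemma exists_cycle {V : Type} {G : SimpleGraph V} {v a b : V} (hab : a ≠ b) (ha : G.Adj v a)
    (hb : G.Adj v b) (p : G.Walk a b) (hp : p.IsPath) (hv : v ∉ p.support) :
    ∃ C : G.Walk v v, C.IsCycle ∧ C.length = p.length + 2 ∧
      ∀ x, x ∈ C.support → x = v ∨ x ∈ p.support := by
  refine ⟨Walk.cons ha (p.concat hb.symm), ?_, by simp [Walk.length_concat], ?_⟩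
  · rw [Walk.cons_isCycle_iff]
    constructor
    · exact Walk.IsPath.concat hp hv hb.symm
    · intro h
      rw [Walk.edges_concat, List.concat_eq_append, List.mem_append, List.mem_singleton] at h
      rcases h with h | h
      · exact hv (p.fst_mem_support_of_mem_edges h)
      · rw [Sym2.eq_iff] at h
        rcases h with ⟨h1, -⟩ | ⟨-, h2⟩
        · exact hb.ne h1
        · exact hab h2
  · intro x hx
    rw [Walk.support_cons, List.mem_cons, Walk.support_concat, List.mem_append,
      List.mem_singleton] at hx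
    rcases hx with h | h | h
    · exact Or.inl h
    · exact Or.inr h
    · exact Or.inl h

section

variable {V : Type} [Fintype V] {G : SimpleGraph V} {k : ℕ}

open Classical in
lemma degree_ge {c : ℕ} (hG : KConnected c G) (v : V) :
    c ≤ (Finset.univ.filter fun w => G.Adj v w).card := by
  by_contra hcon
  push Not at hcon
  set N := Finset.univ.filter fun w => G.Adj v w with hN
  have hvN : v ∉ N := by
    rw [hN, Finset.mem_filter]
    exact fun h => G.loopless.irrefl v h.2
  obtain ⟨z, hz⟩ : ∃ z, z ∉ insert v N := by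
    by_contra hall
    push Not at hall
    have h1 : (Finset.univ : Finset V) ⊆ insert v N := fun z _ => hall z
    have h2 := Finset.card_le_card h1
    rw [Finset.card_univ, Finset.card_insert_of_notMem hvN] at h2
    have := hG.1
    omega
  rw [Finset.mem_insert, not_or] at hz
  have hconn := hG.2 N hcon
  obtain ⟨w⟩ := hconn.preconnected ⟨v, hvN⟩ ⟨z, hz.2⟩
  cases w with
  | nil => exact hz.1 rfl
  | cons hadj _ =>
    rename_i u _
    have hu : G.Adj v u.1 := hadj
    have hm : ∀ w, G.Adj v w → w ∈ N := fun w hw => by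
      rw [hN, Finset.mem_filter]
      exact ⟨Finset.mem_univ _, hw⟩
    exact u.2 (hm _ hu)

open Classical in
/-- the number of neighbours of `v j` outside the prescribed vertices and a set `U` -/
lemma avail {d : ℕ} (hd : ∀ w, d ≤ (Finset.univ.filter fun u => G.Adj w u).card) (v : Fin k → V)
    (hv : Function.Injective v) (j : Fin k) (U : Finset V) :
    d - (k - 1) - U.card ≤
      (Finset.univ.filter fun w => G.Adj (v j) w ∧ w ∉ Finset.univ.image v ∧ w ∉ U).card := by
  have h1 := hd (v j)
  have h2 : (Finset.univ.filter fun w => G.Adj (v j) w) ⊆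
      (Finset.univ.filter fun w => G.Adj (v j) w ∧ w ∉ Finset.univ.image v ∧ w ∉ U) ∪
        (((Finset.univ : Finset (Fin k)).erase j).image v ∪ U) := by
    intro w hw
    rw [Finset.mem_filter] at hw
    rw [Finset.mem_union, Finset.mem_union, Finset.mem_filter]
    by_cases hwU : w ∈ U
    · exact Or.inr (Or.inr hwU)
    · by_cases hwv : w ∈ Finset.univ.image v
      · right
        left
        rw [Finset.mem_image] at hwv ⊢
        obtain ⟨i, -, rfl⟩ := hwv
        refine ⟨i, ?_, rfl⟩
        rw [Finset.mem_erase]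
        refine ⟨?_, Finset.mem_univ _⟩
        rintro rfl
        exact G.loopless.irrefl _ hw.2
      · exact Or.inl ⟨Finset.mem_univ _, hw.2, hwv, hwU⟩
  have h3 := Finset.card_le_card h2
  have h4 := Finset.card_union_le
    (Finset.univ.filter fun w => G.Adj (v j) w ∧ w ∉ Finset.univ.image v ∧ w ∉ U)
    (((Finset.univ : Finset (Fin k)).erase j).image v ∪ U)
  have h5 := Finset.card_union_le (((Finset.univ : Finset (Fin k)).erase j).image v) U
  have h6 : (((Finset.univ : Finset (Fin k)).erase j).image v).card = k - 1 := by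
    rw [Finset.card_image_of_injective _ hv, Finset.card_erase_of_mem (Finset.mem_univ _)]
    simp
  omega

open Classical in
/-- greedy choice of disjoint triangles -/
lemma greedy {d s : ℕ} (hd : ∀ w, d ≤ (Finset.univ.filter fun u => G.Adj w u).card)
    (hcf : StarFree s G) (v : Fin k → V)
    (hv : Function.Injective v) (I : Finset (Fin k)) (hI : k - 1 + 2 * I.card + s ≤ d + 2) :
    ∃ x y : Fin k → V,
      (∀ i ∈ I, G.Adj (v i) (x i) ∧ G.Adj (v i) (y i) ∧ G.Adj (x i) (y i) ∧
        x i ∉ Finset.univ.image v ∧ y i ∉ Finset.univ.image v) ∧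
      (∀ i ∈ I, ∀ j ∈ I, i ≠ j → x i ≠ x j ∧ x i ≠ y j ∧ y i ≠ x j ∧ y i ≠ y j) := by
  induction I using Finset.induction_on with
  | empty => exact ⟨v, v, by simp, by simp⟩
  | insert j I hj ih =>
    rw [Finset.card_insert_of_notMem hj] at hI
    obtain ⟨x, y, h1, h2⟩ := ih (by omega)
    set U : Finset V := I.image x ∪ I.image y with hU
    have hUc : U.card ≤ 2 * I.card := by
      have h3 : U.card ≤ (I.image x).card + (I.image y).card := Finset.card_union_le _ _
      have h4 : (I.image x).card ≤ I.card := Finset.card_image_le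
      have h5 : (I.image y).card ≤ I.card := Finset.card_image_le
      omega
    have h6 := avail hd v hv j U
    have h7 : s ≤ (Finset.univ.filter fun w =>
        G.Adj (v j) w ∧ w ∉ Finset.univ.image v ∧ w ∉ U).card := by omega
    obtain ⟨T, hT, hTc⟩ := Finset.exists_subset_card_eq h7
    obtain ⟨p, hpT, q, hqT, hpq⟩ := hcf (v j) T hTc fun t ht => (Finset.mem_filter.1 (hT ht)).2.1
    obtain ⟨-, hp, hpv, hpU⟩ := Finset.mem_filter.1 (hT hpT)
    obtain ⟨-, hq, hqv, hqU⟩ := Finset.mem_filter.1 (hT hqT)
    have hxU : ∀ i ∈ I, x i ∈ U := fun i hi =>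
      Finset.mem_union_left _ (Finset.mem_image_of_mem _ hi)
    have hyU : ∀ i ∈ I, y i ∈ U := fun i hi =>
      Finset.mem_union_right _ (Finset.mem_image_of_mem _ hi)
    have hne : ∀ i ∈ I, i ≠ j := fun i hi h => hj (h ▸ hi)
    refine ⟨Function.update x j p, Function.update y j q, ?_, ?_⟩
    · intro i hi
      rw [Finset.mem_insert] at hi
      rcases hi with rfl | hi
      · simp only [Function.update_self]
        exact ⟨hp, hq, hpq, hpv, hqv⟩
      · rw [Function.update_of_ne (hne i hi), Function.update_of_ne (hne i hi)]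
        exact h1 i hi
    · intro i hi i' hi' hii
      rw [Finset.mem_insert] at hi hi'
      rcases hi with rfl | hi <;> rcases hi' with rfl | hi'
      · exact absurd rfl hii
      · rw [Function.update_self, Function.update_self, Function.update_of_ne (hne i' hi'),
          Function.update_of_ne (hne i' hi')]
        exact ⟨fun h => hpU (h ▸ hxU i' hi'), fun h => hpU (h ▸ hyU i' hi'),
          fun h => hqU (h ▸ hxU i' hi'), fun h => hqU (h ▸ hyU i' hi')⟩
      · rw [Function.update_self, Function.update_self, Function.update_of_ne (hne i hi),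
          Function.update_of_ne (hne i hi)]
        exact ⟨fun h => hpU (h ▸ hxU i hi), fun h => hqU (h ▸ hxU i hi),
          fun h => hpU (h ▸ hyU i hi), fun h => hqU (h ▸ hyU i hi)⟩
      · rw [Function.update_of_ne (hne i hi), Function.update_of_ne (hne i hi),
          Function.update_of_ne (hne i' hi'), Function.update_of_ne (hne i' hi')]
        exact h2 i hi i' hi' hii

/-- the triangle `v, a, b` -/
lemma triangle {v a b : V} (ha : G.Adj v a) (hb : G.Adj v b) (hab : G.Adj a b) :
    ∃ C : G.Walk v v, C.IsCycle ∧ C.length = 3 ∧ ∀ z, z ∈ C.support → z = v ∨ z = a ∨ z = b := by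
  have hpath : (Walk.cons hab Walk.nil : G.Walk a b).IsPath := by
    rw [Walk.cons_isPath_iff]
    refine ⟨Walk.IsPath.nil, ?_⟩
    rw [Walk.support_nil, List.mem_singleton]
    exact hab.ne
  obtain ⟨C, hC, hl, hC'⟩ := exists_cycle hab.ne ha hb (Walk.cons hab Walk.nil) hpath (by
    rw [Walk.support_cons, Walk.support_nil, List.mem_cons, List.mem_singleton, not_or]
    exact ⟨ha.ne, hb.ne⟩)
  refine ⟨C, hC, by rw [hl]; rfl, fun z hz => ?_⟩
  rcases hC' z hz with h | h
  · exact Or.inl h
  · rw [Walk.support_cons, Walk.support_nil, List.mem_cons, List.mem_singleton] at h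
    exact Or.inr h

open Classical in
/-- Large minimum degree alone gives disjoint triangles. -/
theorem all_triangles {s : ℕ} (hk : 1 ≤ k)
    (hd : ∀ w, 3 * k + s - 3 ≤ (Finset.univ.filter fun u => G.Adj w u).card)
    (hcf : StarFree s G) (v : Fin k → V) (hv : Function.Injective v) :
    SeparatedTri G v Set.univ := by
  obtain ⟨x, y, h1, h2⟩ := greedy hd hcf v hv Finset.univ (by
    rw [Finset.card_univ, Fintype.card_fin]; omega)
  choose C hC hC3 hC' using fun i => triangle (h1 i (Finset.mem_univ i)).1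
    (h1 i (Finset.mem_univ i)).2.1 (h1 i (Finset.mem_univ i)).2.2.1
  refine ⟨C, hC, fun i _ => hC3 i, ?_⟩
  intro i j hij z hzi hzj
  have hxv : ∀ i j, x i ≠ v j := fun i j h =>
    (h1 i (Finset.mem_univ i)).2.2.2.1 (h ▸ Finset.mem_image_of_mem _ (Finset.mem_univ _))
  have hyv : ∀ i j, y i ≠ v j := fun i j h =>
    (h1 i (Finset.mem_univ i)).2.2.2.2 (h ▸ Finset.mem_image_of_mem _ (Finset.mem_univ _))
  have h3 := h2 i (Finset.mem_univ i) j (Finset.mem_univ j) hij
  rcases hC' i z hzi with h | h | h <;> rcases hC' j z hzj with h' | h' | h'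
  · exact hij (hv (h.symm.trans h'))
  · exact hxv j i (h'.symm.trans h)
  · exact hyv j i (h'.symm.trans h)
  · exact hxv i j (h.symm.trans h')
  · exact h3.1 (h.symm.trans h')
  · exact h3.2.1 (h.symm.trans h')
  · exact hyv i j (h.symm.trans h')
  · exact h3.2.2.1 (h.symm.trans h')
  · exact h3.2.2.2 (h.symm.trans h')

open Classical in
theorem separated {c s : ℕ} (hc1 : 3 * k - 1 ≤ c) (hc2 : 3 * k + s - 5 ≤ c) (hG : KConnected c G)
    (hcf : StarFree s G) (v : Fin k → V)
    (hv : Function.Injective v) (l : Fin k) : SeparatedTri G v {i | i ≠ l} := by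
  have hk : 1 ≤ k := l.pos
  set I : Finset (Fin k) := Finset.univ.erase l with hI
  have hIc : I.card = k - 1 := by
    rw [hI, Finset.card_erase_of_mem (Finset.mem_univ _)]
    simp
  have hgr : ∃ x y : Fin k → V,
      (∀ i ∈ I, G.Adj (v i) (x i) ∧ G.Adj (v i) (y i) ∧ G.Adj (x i) (y i) ∧
        x i ∉ Finset.univ.image v ∧ y i ∉ Finset.univ.image v) ∧
      (∀ i ∈ I, ∀ j ∈ I, i ≠ j → x i ≠ x j ∧ x i ≠ y j ∧ y i ≠ x j ∧ y i ≠ y j) := by
    rcases Nat.lt_or_ge 1 k with h | h
    · exact greedy (degree_ge hG) hcf v hv I (by omega)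
    · have hI0 : I = ∅ := by
        rw [← Finset.card_eq_zero]; omega
      rw [hI0]
      exact ⟨v, v, by simp, by simp⟩
  obtain ⟨x, y, h1, h2⟩ := hgr
  set U : Finset V := I.image x ∪ I.image y with hU
  have hUc : U.card ≤ 2 * (k - 1) := by
    have h3 : U.card ≤ (I.image x).card + (I.image y).card := Finset.card_union_le _ _
    have h4 : (I.image x).card ≤ I.card := Finset.card_image_le
    have h5 : (I.image y).card ≤ I.card := Finset.card_image_le
    omega
  have h6 := avail (degree_ge hG) v hv l U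
  have h7 : 1 < (Finset.univ.filter fun w =>
      G.Adj (v l) w ∧ w ∉ Finset.univ.image v ∧ w ∉ U).card := by omega
  obtain ⟨a, ha, b, hb, hab⟩ := Finset.one_lt_card.1 h7
  rw [Finset.mem_filter] at ha hb
  set S : Finset V := Finset.univ.image v ∪ U with hS
  have hSc : S.card < c := by
    have h3 : S.card ≤ (Finset.univ.image v).card + U.card := Finset.card_union_le _ _
    have h4 : (Finset.univ.image v).card = k := by
      rw [Finset.card_image_of_injective _ hv]
      simp
    omega
  have haS : a ∉ S := by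
    rw [hS, Finset.mem_union, not_or]
    exact ha.2.2
  have hbS : b ∉ S := by
    rw [hS, Finset.mem_union, not_or]
    exact hb.2.2
  obtain ⟨p0, hp0⟩ := (hG.2 S hSc).exists_isPath ⟨a, haS⟩ ⟨b, hbS⟩
  have hinj : Function.Injective (Embedding.induce {z | z ∉ S} : G.induce {z | z ∉ S} ↪g G) :=
    (Embedding.induce (G := G) {z | z ∉ S}).injective
  -- the path in `G`
  obtain ⟨p, hp, hpS⟩ : ∃ p : G.Walk a b, p.IsPath ∧ ∀ z ∈ p.support, z ∉ S := by
    refine ⟨p0.map (Embedding.induce {z | z ∉ S}).toHom, ?_, ?_⟩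
    · exact Walk.IsPath.map hinj hp0
    · intro z hz
      have hz2 : z ∈ (p0.map (Embedding.induce (G := G) {z | z ∉ S}).toHom).support := hz
      rw [Walk.support_map, List.mem_map] at hz2
      obtain ⟨z', -, rfl⟩ := hz2
      exact z'.2
  have hvS : ∀ i, v i ∈ S := fun i =>
    Finset.mem_union_left _ (Finset.mem_image_of_mem _ (Finset.mem_univ _))
  have hxS : ∀ i ∈ I, x i ∈ S := fun i hi =>
    Finset.mem_union_right _ (Finset.mem_union_left _ (Finset.mem_image_of_mem _ hi))
  have hyS : ∀ i ∈ I, y i ∈ S := fun i hi =>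
    Finset.mem_union_right _ (Finset.mem_union_right _ (Finset.mem_image_of_mem _ hi))
  have hlast := exists_cycle hab ha.2.1 hb.2.1 p hp (fun h => hpS _ h (hvS l))
  have htri : ∀ i ∈ I, ∃ C : G.Walk (v i) (v i), C.IsCycle ∧ C.length = 3 ∧
      ∀ z, z ∈ C.support → z = v i ∨ z = x i ∨ z = y i := fun i hi =>
    triangle (h1 i hi).1 (h1 i hi).2.1 (h1 i hi).2.2.1
  have hall : ∀ i, ∃ C : G.Walk (v i) (v i), C.IsCycle ∧ (i ∈ I → C.length = 3) ∧
      ∀ z, z ∈ C.support → z = v i ∨ (i ∈ I ∧ (z = x i ∨ z = y i)) ∨ (i ∉ I ∧ z ∉ S) := by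
    intro i
    by_cases hi : i ∈ I
    · obtain ⟨C, hC, hC3, hC'⟩ := htri i hi
      exact ⟨C, hC, fun _ => hC3, fun z hz => (hC' z hz).elim Or.inl (fun h => Or.inr (Or.inl ⟨hi, h⟩))⟩
    · have hil : i = l := by
        by_contra hne
        exact hi (by rw [hI, Finset.mem_erase]; exact ⟨hne, Finset.mem_univ _⟩)
      subst hil
      obtain ⟨C, hC, -, hC'⟩ := hlast
      exact ⟨C, hC, fun h => absurd h hi, fun z hz => (hC' z hz).elim Or.inl
        (fun h => Or.inr (Or.inr ⟨hi, hpS z h⟩))⟩
  choose C hC hC3 hC' using hall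
  refine ⟨C, hC, fun i hi => hC3 i (by
    rw [hI, Finset.mem_erase]; exact ⟨hi, Finset.mem_univ _⟩), ?_⟩
  intro i j hij z hzi hzj
  have hxv : ∀ i ∈ I, ∀ j, x i ≠ v j := fun i hi j h =>
    (h1 i hi).2.2.2.1 (h ▸ Finset.mem_image_of_mem _ (Finset.mem_univ _))
  have hyv : ∀ i ∈ I, ∀ j, y i ≠ v j := fun i hi j h =>
    (h1 i hi).2.2.2.2 (h ▸ Finset.mem_image_of_mem _ (Finset.mem_univ _))
  rcases hC' i z hzi with h | ⟨hi, h | h⟩ | ⟨hi, h⟩ <;>
    rcases hC' j z hzj with h' | ⟨hj, h' | h'⟩ | ⟨hj, h'⟩
  · exact hij (hv (h.symm.trans h'))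
  · exact hxv j hj i (h'.symm.trans h)
  · exact hyv j hj i (h'.symm.trans h)
  · exact h' (h ▸ hvS i)
  · exact hxv i hi j (h.symm.trans h')
  · exact (h2 i hi j hj hij).1 (h.symm.trans h')
  · exact (h2 i hi j hj hij).2.1 (h.symm.trans h')
  · exact h' (h ▸ hxS i hi)
  · exact hyv i hi j (h.symm.trans h')
  · exact (h2 i hi j hj hij).2.2.1 (h.symm.trans h')
  · exact (h2 i hi j hj hij).2.2.2 (h.symm.trans h')
  · exact h' (h ▸ hyS i hi)
  · exact h (h' ▸ hvS j)
  · exact h (h' ▸ hxS j hj)
  · exact h (h' ▸ hyS j hj)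
  · have h3 : i = l := by
      by_contra hne
      exact hi (by rw [hI, Finset.mem_erase]; exact ⟨hne, Finset.mem_univ _⟩)
    have h4 : j = l := by
      by_contra hne
      exact hj (by rw [hI, Finset.mem_erase]; exact ⟨hne, Finset.mem_univ _⟩)
    exact hij (h3.trans h4.symm)

end

/-- the complete graph is `c`-connected for all `c` smaller than its order -/
lemma top_connected {n c : ℕ} (h : c < n) : KConnected c (⊤ : SimpleGraph (Fin n)) := by
  refine ⟨by simpa using h, ?_⟩
  intro W hW
  obtain ⟨z, hz⟩ : ∃ z, z ∉ W := by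
    by_contra hall
    push Not at hall
    have h1 : (Finset.univ : Finset (Fin n)) ⊆ W := fun z _ => hall z
    have h2 := Finset.card_le_card h1
    rw [Finset.card_univ, Fintype.card_fin] at h2
    omega
  rw [SimpleGraph.connected_iff]
  refine ⟨fun x y => ?_, ⟨⟨z, hz⟩⟩⟩
  by_cases hxy : x = y
  · subst hxy
    exact Reachable.refl _
  · apply Adj.reachable
    show (⊤ : SimpleGraph (Fin n)).Adj x.1 y.1
    rw [top_adj]
    exact fun h => hxy (Subtype.ext h)

lemma SeparatedTri.separated {V : Type} {k : ℕ} {G : SimpleGraph V} {v : Fin k → V} {J : Set (Fin k)}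
    (h : SeparatedTri G v J) : Separated G v := by
  obtain ⟨C, h1, -, h2⟩ := h
  exact ⟨C, h1, h2⟩

/-- The set of all `c` such that in every `c`-connected graph with the property `P` any `k` distinct
vertices are separated by `k` disjoint cycles. -/
def Suff (P : ∀ V : Type, SimpleGraph V → Prop) (k : ℕ) : Set ℕ :=
  {c : ℕ | ∀ (V : Type) [Fintype V] (G : SimpleGraph V), P V G → KConnected c G →
      ∀ v : Fin k → V, Function.Injective v → Separated G v}

lemma isLeast_of (P : ∀ V : Type, SimpleGraph V → Prop) (k : ℕ) (hk : 1 ≤ k)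
    (hP : P (Fin (3 * k - 1)) ⊤) (h : 3 * k - 1 ∈ Suff P k) : IsLeast (Suff P k) (3 * k - 1) := by
  constructor
  · exact h
  · intro c hc
    by_contra hlt
    push Not at hlt
    have hle : k ≤ 3 * k - 1 := by omega
    obtain ⟨C, hC, hdis⟩ := hc (Fin (3 * k - 1)) ⊤ hP (top_connected hlt) (Fin.castLE hle)
      (Fin.castLE_injective hle)
    -- the supports are disjoint sets of at least three vertices
    have h3 : ∀ i, 3 ≤ (C i).support.toFinset.card := by
      intro i
      have h1 := (hC i).three_le_length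
      have h2 : (C i).support.tail.toFinset ⊆ (C i).support.toFinset := by
        intro z hz
        rw [List.mem_toFinset] at hz ⊢
        exact List.mem_of_mem_tail hz
      have h3 := Finset.card_le_card h2
      rw [List.toFinset_card_of_nodup (hC i).support_nodup, List.length_tail,
        Walk.length_support] at h3
      omega
    have hsum : ∑ i : Fin k, (C i).support.toFinset.card ≤ 3 * k - 1 := by
      rw [← Finset.card_biUnion]
      · calc _ ≤ (Finset.univ : Finset (Fin (3 * k - 1))).card := Finset.card_le_univ _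
          _ = 3 * k - 1 := by simp
      · intro i _ j _ hij
        rw [Function.onFun, Finset.disjoint_left]
        intro z hz hz'
        rw [List.mem_toFinset] at hz hz'
        exact hdis i j hij z hz hz'
    have hlow : ∑ _i : Fin k, 3 ≤ ∑ i : Fin k, (C i).support.toFinset.card :=
      Finset.sum_le_sum (fun i _ => h3 i)
    simp only [Finset.sum_const, Finset.card_univ, Fintype.card_fin, smul_eq_mul] at hlow
    omega

lemma top_starFree (n s : ℕ) (hs : 2 ≤ s) : StarFree s (⊤ : SimpleGraph (Fin n)) := by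
  intro v T hT _
  obtain ⟨a, ha, b, hb, hab⟩ := Finset.one_lt_card.1 (show 1 < T.card by omega)
  exact ⟨a, ha, b, hb, by rw [top_adj]; exact hab⟩

/-- **Disjoint cycles in graphs without an induced star.**
(1) Let `G` be a finite graph without an induced `K_{1,s}` that is `c`-connected with
`c ≥ 3k - 1` and `c ≥ 3k + s - 5`. Then any `k` distinct vertices `v_1, …, v_k` are separated by `k`
disjoint cycles, and all but one of them, the exceptional index `l` being prescribed, can be taken to
be triangles.
(2) Let `G` be a finite graph without an induced `K_{1,s}` and with minimum degree at least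
`3k + s - 3`. Then any `k ≥ 1` distinct vertices are separated by `k` disjoint triangles.
(3) For `2 ≤ s ≤ 4` the least connectivity which forces any `k ≥ 1` vertices of a graph without an
induced `K_{1,s}` to be separated by `k` disjoint cycles is `3k - 1`.
(4) (Q1) For claw-free graphs the least connectivity is `f(k) = 3k - 1`. -/
theorem result :
    (∀ (k s c : ℕ), 3 * k - 1 ≤ c → 3 * k + s - 5 ≤ c →
      ∀ (V : Type) [Fintype V] (G : SimpleGraph V), StarFree s G → KConnected c G →
        ∀ v : Fin k → V, Function.Injective v → ∀ l : Fin k, SeparatedTri G v {i | i ≠ l}) ∧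
    (∀ (k s : ℕ), 1 ≤ k → ∀ (V : Type) [Fintype V] (G : SimpleGraph V), StarFree s G →
      (∀ w : V, 3 * k + s - 3 ≤ (G.neighborSet w).ncard) →
        ∀ v : Fin k → V, Function.Injective v → SeparatedTri G v Set.univ) ∧
    (∀ (k s : ℕ), 1 ≤ k → 2 ≤ s → s ≤ 4 →
      IsLeast (Suff (fun _ G => StarFree s G) k) (3 * k - 1)) ∧
    (∀ k : ℕ, 1 ≤ k → IsLeast (Suff (fun _ G => ClawFree G) k) (3 * k - 1)) := by
  classical
  refine ⟨?_, ?_, ?_, ?_⟩
  · intro k s c h1 h2 V _ G hcf hG v hv l
    exact separated h1 h2 hG hcf v hv l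
  · intro k s hk V _ G hcf hd v hv
    refine all_triangles hk (fun w => ?_) hcf v hv
    refine (hd w).trans (le_of_eq ?_)
    rw [← Set.ncard_coe_finset]
    congr 1
    ext u
    simp
  · intro k s hk h2 h4
    refine isLeast_of _ k hk (top_starFree _ s h2) ?_
    intro V _ G hcf hG v hv
    exact (separated le_rfl (by omega) hG hcf v hv ⟨0, hk⟩).separated
  · intro k hk
    refine isLeast_of _ k hk ?_ ?_
    · intro v a b c _ _ _ hab _ _
      left
      rw [top_adj]
      exact hab
    · intro V _ G hcf hG v hv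
      exact (separated le_rfl (by omega) hG hcf.starFree v hv ⟨0, hk⟩).separated

end Pool.Agent.Results.MP_6859a2_co.InducedStars
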